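import Pool.Agent.HBM3.Tri1

/-!
# Labelling, existence of the maximum area triangle, and the main theorem
-/

namespace Pool.Agent.HBM3

open Pointwise

theorem main_good {K : Set Pl} {A B C X Y Z : Pl} {f1 f2 f3 : Pl → ℝ} (hK : Convex ℝ K)
    (cfg : Cfg K A B C f1 f2 f3) (hX : X ∈ K) (hY : Y ∈ K) (hZ : Z ∈ K)
    (mX : ∀ P ∈ K, f1 X ≤ f1 P) (mY : ∀ P ∈ K, f2 Y ≤ f2 P) (mZ : ∀ P ∈ K, f3 Z ≤ f3 P)
    (hb1 : f1 X ≤ f2 Y) (hb2 : f3 Z ≤ f2 Y) (hD : f2 Z ≤ f2 X) : Concl K := by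
  obtain ⟨a, ha⟩ : ∃ a, a = -f1 X := ⟨_, rfl⟩
  obtain ⟨b, hb⟩ : ∃ b, b = -f2 Y := ⟨_, rfl⟩
  obtain ⟨c, hc⟩ : ∃ c, c = -f3 Z := ⟨_, rfl⟩
  obtain ⟨xi, hxi⟩ : ∃ xi, xi = 1 - f3 X := ⟨_, rfl⟩
  obtain ⟨ze, hze⟩ : ∃ ze, ze = 1 - f1 Z := ⟨_, rfl⟩
  have hX1 : f1 X = -a := by linarith
  have hX3 : f3 X = 1 - xi := by linarith
  have hX2 : f2 X = a + xi := by have := cfg.sum X; linarith
  have hZ1 : f1 Z = 1 - ze := by linarith
  have hZ3 : f3 Z = -c := by linarith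
  have hZ2 : f2 Z = c + ze := by have := cfg.sum Z; linarith
  have hY2 : f2 Y = -b := by linarith
  have hA1 : ∀ P ∈ K, -a ≤ f1 P := fun P hP => by have := mX P hP; linarith
  have hB1 : ∀ P ∈ K, -b ≤ f2 P := fun P hP => by have := mY P hP; linarith
  have hC1 : ∀ P ∈ K, -c ≤ f3 P := fun P hP => by have := mZ P hP; linarith
  have u1 : ∀ P ∈ K, f1 P ≤ 1 := by
    intro P hP
    have := cfg.bd P hP B cfg.hB C cfg.hC
    simp only [cfg.b1, cfg.b2, cfg.b3, cfg.c1', cfg.c2', cfg.c3', D3] at this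
    linarith
  have u2 : ∀ P ∈ K, f2 P ≤ 1 := by
    intro P hP
    have := cfg.bd A cfg.hA P hP C cfg.hC
    simp only [cfg.a1, cfg.a2, cfg.a3, cfg.c1', cfg.c2', cfg.c3', D3] at this
    linarith
  have u3 : ∀ P ∈ K, f3 P ≤ 1 := by
    intro P hP
    have := cfg.bd A cfg.hA B cfg.hB P hP
    simp only [cfg.a1, cfg.a2, cfg.a3, cfg.b1, cfg.b2, cfg.b3, D3] at this
    linarith
  by_cases hsum : a + b + c ≤ 119/100
  · exact tri0 cfg hA1 hB1 hC1 hsum
  have hg := not_le.1 hsum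
  have hb0 : 0 ≤ b := by
    have := mY A cfg.hA
    rw [cfg.a2] at this
    linarith
  have hba : b ≤ a := by linarith
  have hbc : b ≤ c := by linarith
  have hxi0 : 0 ≤ xi := by have := u3 X hX; linarith
  have hze0 : 0 ≤ ze := by have := u1 Z hZ; linarith
  have hx1 : a + xi ≤ 1 := by have := u2 X hX; linarith
  have hz1 : c + ze ≤ 1 := by have := u2 Z hZ; linarith
  have ha0 : 0 < a := by linarith
  have hc0 : 0 < c := by linarith
  have hCZ : ∀ P ∈ K, (1-ze)*f2 P - (c+ze)*f1 P ≤ 1 := by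
    intro P hP
    have := cfg.bd C cfg.hC Z hZ P hP
    simp only [cfg.c1', cfg.c2', cfg.c3', hZ1, hZ2, hZ3, D3] at this
    linarith
  have hAX : ∀ P ∈ K, (1-xi)*f2 P - (a+xi)*f3 P ≤ 1 := by
    intro P hP
    have := cfg.bd X hX A cfg.hA P hP
    simp only [cfg.a1, cfg.a2, cfg.a3, hX1, hX2, hX3, D3] at this
    linarith
  have hXZ : ∀ P ∈ K, (a+xi-c-ze)*f3 P - (1+c-xi)*f2 P ≤ 1 - c*(1+a) - ze*(1-xi) := by
    intro P hP
    have h1 := cfg.bd X hX P hP Z hZ
    have h2 : f1 P = 1 - f2 P - f3 P := by have := cfg.sum P; linarith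
    simp only [hX1, hX2, hX3, hZ1, hZ2, hZ3, D3, h2] at h1
    linarith
  have hC1' : a*(1+c) + xi*(1-ze) ≤ 1 := by
    have := cfg.bd X hX C cfg.hC Z hZ
    simp only [cfg.c1', cfg.c2', cfg.c3', hX1, hX2, hX3, hZ1, hZ2, hZ3, D3] at this
    linarith
  have hC3' : c*(1+a) + ze*(1-xi) ≤ 1 := by
    have := cfg.bd X hX A cfg.hA Z hZ
    simp only [cfg.a1, cfg.a2, cfg.a3, hX1, hX2, hX3, hZ1, hZ2, hZ3, D3] at this
    linarith
  have hC2' : b*(1+a-ze) ≤ 1 - c*(1+a) - ze*(1-xi) := by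
    have h1 := cfg.bd X hX Y hY Z hZ
    have h2 : f3 Y = 1 + b - f1 Y := by have := cfg.sum Y; linarith
    have h3 : 0 ≤ (1 - f1 Y) * (a + xi - c - ze) :=
      mul_nonneg (by linarith [u1 Y hY]) (by linarith)
    simp only [hX1, hX2, hX3, hZ1, hZ2, hZ3, hY2, D3, h2] at h1
    linarith
  obtain ⟨e1, he1⟩ : ∃ e1, (1-xi)*e1 = 1 - c*(1+a) - ze*(1-xi) :=
    ⟨(1 - c*(1+a) - ze*(1-xi))/(1-xi), by
      have : 1 - xi ≠ 0 := by linarith
      field_simp⟩
  obtain ⟨e2, he2⟩ : ∃ e2, (1-ze)*e2 = 1 - a*(1+c) - xi*(1-ze) :=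
    ⟨(1 - a*(1+c) - xi*(1-ze))/(1-ze), by
      have : 1 - ze ≠ 0 := by linarith
      field_simp⟩
  rcases key hb0 hba hbc hxi0 hze0 hx1 hz1 hC1' hC2' hg he1 he2 with hF | ⟨hxi5, hze6, hG⟩
  · exact tri2 hK cfg hX ha0 hc0 hxi0 hze0 hx1 (Or.inr hz1) (by linarith) hX1 hX2 hX3 hA1 hC1
      hCZ hXZ he2 hF
  · exact tri1 hK cfg hX hZ ha0 hc0 hxi0 hze0 hx1 hz1 hxi5 hze6 hX1 hX2 hX3 hZ1 hZ2 hZ3 hA1 hB1
      hC1 hCZ hAX hC1' hC3' he1 he2 hG

theorem main_mid {K : Set Pl} {A B C X Y Z : Pl} {f1 f2 f3 : Pl → ℝ} (hK : Convex ℝ K)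
    (cfg : Cfg K A B C f1 f2 f3) (hX : X ∈ K) (hY : Y ∈ K) (hZ : Z ∈ K)
    (mX : ∀ P ∈ K, f1 X ≤ f1 P) (mY : ∀ P ∈ K, f2 Y ≤ f2 P) (mZ : ∀ P ∈ K, f3 Z ≤ f3 P)
    (hb1 : f1 X ≤ f2 Y) (hb2 : f3 Z ≤ f2 Y) : Concl K := by
  rcases le_total (f2 Z) (f2 X) with h | h
  · exact main_good hK cfg hX hY hZ mX mY mZ hb1 hb2 h
  · exact main_good hK cfg.swap hZ hY hX mZ mY mX hb2 hb1 h

theorem main_cfg {K : Set Pl} {A B C : Pl} {f1 f2 f3 : Pl → ℝ} (hK : Convex ℝ K)
    (hKc : IsCompact K) (cfg : Cfg K A B C f1 f2 f3) (h1 : Continuous f1) (h2 : Continuous f2)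
    (h3 : Continuous f3) : Concl K := by
  have hne : K.Nonempty := ⟨A, cfg.hA⟩
  obtain ⟨X, hX, mX'⟩ := hKc.exists_isMinOn hne h1.continuousOn
  obtain ⟨Y, hY, mY'⟩ := hKc.exists_isMinOn hne h2.continuousOn
  obtain ⟨Z, hZ, mZ'⟩ := hKc.exists_isMinOn hne h3.continuousOn
  have mX : ∀ P ∈ K, f1 X ≤ f1 P := fun P hP => mX' hP
  have mY : ∀ P ∈ K, f2 Y ≤ f2 P := fun P hP => mY' hP
  have mZ : ∀ P ∈ K, f3 Z ≤ f3 P := fun P hP => mZ' hP
  rcases le_total (f1 X) (f2 Y) with p | p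
  · rcases le_total (f3 Z) (f2 Y) with q | q
    · exact main_mid hK cfg hX hY hZ mX mY mZ p q
    · exact main_mid hK cfg.cyc hY hZ hX mY mZ mX q (p.trans q)
  · rcases le_total (f3 Z) (f1 X) with q | q
    · exact main_mid hK cfg.cyc.cyc hZ hX hY mZ mX mY q p
    · exact main_mid hK cfg.cyc hY hZ hX mY mZ mX (p.trans q) q

/-- Twice the oriented area. -/
def det2 (P Q R : Pl) : ℝ := (Q 0 - P 0)*(R 1 - P 1) - (Q 1 - P 1)*(R 0 - P 0)

theorem continuous_coord (i : Fin 2) : Continuous fun P : Pl => P i := by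
  fun_prop

theorem exists_cfg {K : Set Pl} (hKc : IsCompact K) (hKi : (interior K).Nonempty) :
    ∃ (A B C : Pl) (f1 f2 f3 : Pl → ℝ), Cfg K A B C f1 f2 f3 ∧ Continuous f1 ∧ Continuous f2 ∧
      Continuous f3 := by
  obtain ⟨p, hp⟩ := hKi
  have hcont : Continuous fun T : Pl × Pl × Pl => det2 T.1 T.2.1 T.2.2 := by
    unfold det2
    fun_prop
  have hcomp : IsCompact (K ×ˢ K ×ˢ K) := hKc.prod (hKc.prod hKc)
  have hpK : p ∈ K := interior_subset hp
  obtain ⟨T, hT, hmax'⟩ := hcomp.exists_isMaxOn ⟨(p, p, p), hpK, hpK, hpK⟩ hcont.continuousOn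
  obtain ⟨A, B, C⟩ := T
  obtain ⟨hA, hB, hC⟩ := hT
  simp only at hA hB hC
  have hmax : ∀ P ∈ K, ∀ Q ∈ K, ∀ R ∈ K, det2 P Q R ≤ det2 A B C :=
    fun P hP Q hQ R hR => hmax' (a := (P, Q, R)) ⟨hP, hQ, hR⟩
  have hpos : 0 < det2 A B C := by
    obtain ⟨r, hr, hball⟩ := Metric.isOpen_iff.1 isOpen_interior p hp
    have hmem : ∀ i : Fin 2, p + EuclideanSpace.single i (r/2) ∈ K := by
      intro i
      refine interior_subset (hball ?_)
      rw [Metric.mem_ball, dist_eq_norm, add_sub_cancel_left, EuclideanSpace.norm_single,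
        Real.norm_eq_abs, abs_of_pos (by linarith)]
      linarith
    have := hmax p hpK _ (hmem 0) _ (hmem 1)
    refine lt_of_lt_of_le ?_ this
    unfold det2
    simp
    positivity
  set d := det2 A B C with hd
  have hne : d ≠ 0 := hpos.ne'
  have hne' : (B 0 - A 0)*(C 1 - A 1) - (B 1 - A 1)*(C 0 - A 0) ≠ 0 := by
    have := hne
    rw [hd] at this
    exact this
  have hsum : ∀ P, det2 P B C / d + det2 A P C / d + det2 A B P / d = 1 := by
    intro P
    rw [← add_div, ← add_div, div_eq_one_iff_eq hne, hd]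
    unfold det2
    ring
  have hrep : ∀ P : Pl, P = (det2 P B C / d) • A + (det2 A P C / d) • B
      + (det2 A B P / d) • C := by
    intro P
    ext i
    have e : (((det2 P B C / d) • A + (det2 A P C / d) • B + (det2 A B P / d) • C : Pl)) i
        = (det2 P B C * A i + det2 A P C * B i + det2 A B P * C i) / d := by
      simp only [PiLp.add_apply, PiLp.smul_apply, smul_eq_mul]
      ring
    rw [e, eq_div_iff hne, hd]
    unfold det2
    fin_cases i <;> simp <;> ring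
  refine ⟨A, B, C, fun P => det2 P B C / d, fun P => det2 A P C / d, fun P => det2 A B P / d,
    ?_, ?_, ?_, ?_⟩
  · refine
      { hA := hA, hB := hB, hC := hC, sum := hsum, rep := hrep, c1 := ?_, c2 := ?_, c3 := ?_,
        a1 := ?_, a2 := ?_, a3 := ?_, b1 := ?_, b2 := ?_, b3 := ?_, c1' := ?_, c2' := ?_,
        c3' := ?_, bd := ?_ }
    · intro P Q t
      simp only [det2, PiLp.add_apply, PiLp.smul_apply, PiLp.sub_apply, smul_eq_mul]
      ring
    · intro P Q t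
      simp only [det2, PiLp.add_apply, PiLp.smul_apply, PiLp.sub_apply, smul_eq_mul]
      ring
    · intro P Q t
      simp only [det2, PiLp.add_apply, PiLp.smul_apply, PiLp.sub_apply, smul_eq_mul]
      ring
    · exact div_self hne
    · simp only [det2]; ring
    · simp only [det2]; ring
    · simp only [det2]; ring
    · exact div_self hne
    · simp only [det2]; ring
    · simp only [det2]; ring
    · simp only [det2]; ring
    · exact div_self hne
    · intro P hP Q hQ R hR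
      have h := hmax P hP Q hQ R hR
      have s0 := hsum P
      have s1 := hsum Q
      have s2 := hsum R
      have hP' := hrep P
      have hQ' := hrep Q
      have hR' := hrep R
      generalize det2 P B C / d = p1 at *
      generalize det2 A P C / d = p2 at *
      generalize det2 A B P / d = p3 at *
      generalize det2 Q B C / d = q1 at *
      generalize det2 A Q C / d = q2 at *
      generalize det2 A B Q / d = q3 at *
      generalize det2 R B C / d = r1 at *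
      generalize det2 A R C / d = r2 at *
      generalize det2 A B R / d = r3 at *
      have e : det2 P Q R = D3 p1 p2 p3 q1 q2 q3 r1 r2 r3 * d := by
        have t0 : p3 = 1 - p1 - p2 := by linarith
        have t1 : q3 = 1 - q1 - q2 := by linarith
        have t2 : r3 = 1 - r1 - r2 := by linarith
        rw [hP', hQ', hR', hd, t0, t1, t2]
        simp only [det2, D3, PiLp.add_apply, PiLp.smul_apply, smul_eq_mul]
        ring
      rw [e] at h
      by_contra hcon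
      have := mul_lt_mul_of_pos_right (not_le.1 hcon) hpos
      linarith
  · unfold det2
    fun_prop
  · unfold det2
    fun_prop
  · unfold det2
    fun_prop

/-- **Main theorem, geometric form.** Every planar convex body contains a triangle a translate of
`219/100` times which covers it. -/
theorem main_geo {K : Set Pl} (hK : IsBody K) : ∃ P : Set Pl, IsNGon 3 P ∧ P ⊆ K ∧
    ∃ t : Pl, K ⊆ (219/100 : ℝ) • P + {t} := by
  classical
  obtain ⟨hconv, hcomp, hint⟩ := hK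
  obtain ⟨A, B, C, f1, f2, f3, cfg, h1, h2, h3⟩ := exists_cfg hcomp hint
  obtain ⟨V1, hV1, V2, hV2, V3, hV3, t, ht⟩ := main_cfg hconv hcomp cfg h1 h2 h3
  refine ⟨convexHull ℝ ({V1, V2, V3} : Set Pl), ⟨{V1, V2, V3}, Finset.card_le_three, by simp, ?_⟩,
    ?_, t, ht⟩
  · -- the interior is nonempty because the interior of `K` is nonempty
    obtain ⟨p, hp⟩ := hint
    have h4 : interior K ⊆ interior ((219/100 : ℝ) • convexHull ℝ ({V1, V2, V3} : Set Pl) + {t}) :=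
      interior_mono ht
    have h5 := h4 hp
    rw [Set.add_singleton] at h5
    have h6 : (fun x : Pl => x + t) '' ((219/100 : ℝ) • convexHull ℝ ({V1, V2, V3} : Set Pl))
        = (Homeomorph.addRight t) '' ((219/100 : ℝ) • convexHull ℝ ({V1, V2, V3} : Set Pl)) := rfl
    rw [h6, ← (Homeomorph.addRight t).image_interior] at h5
    obtain ⟨q, hq, -⟩ := h5
    rw [interior_smul₀ (by norm_num : (219/100 : ℝ) ≠ 0)] at hq
    obtain ⟨q', hq', -⟩ := hq
    exact ⟨q', hq'⟩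
  · refine convexHull_min ?_ hconv
    rintro v (rfl | rfl | rfl)
    · exact hV1
    · exact hV2
    · exact hV3

theorem homRatios_pos {C₁ C₂ : Set Pl} {r : ℝ} (h : r ∈ homRatios C₁ C₂) : 0 ≤ r := by
  obtain ⟨l₁, l₂, t₁, t₂, h1, h2, -, -, rfl⟩ := h
  exact (div_pos h2 h1).le

theorem homDist_nonneg (C₁ C₂ : Set Pl) : 0 ≤ homDist C₁ C₂ :=
  Real.sInf_nonneg fun _ h => homRatios_pos h

theorem homDist_le {K : Set Pl} (hK : IsBody K) :
    ∃ P : Set Pl, IsNGon 3 P ∧ homDist K P ≤ 219/100 := by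
  obtain ⟨P, hP, hPK, t, ht⟩ := main_geo hK
  refine ⟨P, hP, csInf_le ⟨0, fun _ h => homRatios_pos h⟩ ?_⟩
  refine ⟨100/219, 1, -((100/219 : ℝ) • t), 0, by norm_num, one_pos, ?_, ?_, by norm_num⟩
  · intro x hx
    obtain ⟨y, hy, t', ht', rfl⟩ := Set.mem_add.1 hx
    rw [Set.mem_singleton_iff] at ht'
    subst ht'
    obtain ⟨k, hk, rfl⟩ := hy
    obtain ⟨z, hz, t'', ht'', hzt⟩ := Set.mem_add.1 (ht hk)
    rw [Set.mem_singleton_iff] at ht''
    subst ht''
    obtain ⟨v, hv, rfl⟩ := hz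
    have : (100/219 : ℝ) • k + -((100/219 : ℝ) • t'') = v := by
      rw [← hzt, smul_add, smul_smul]
      norm_num
    simp only at this ⊢
    rw [this]
    exact hv
  · intro x hx
    rw [one_smul, Set.add_singleton]
    exact ⟨x, hPK hx, by simp⟩

theorem gam_le : gam 3 ≤ 219/100 := by
  refine Real.sSup_le ?_ (by norm_num)
  rintro x ⟨C, hC, rfl⟩
  obtain ⟨P, hP, hd⟩ := homDist_le hC
  refine le_trans (csInf_le ⟨0, ?_⟩ ⟨P, hP, rfl⟩) hd
  rintro y ⟨Q, -, rfl⟩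
  exact homDist_nonneg C Q

end Pool.Agent.HBM3
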