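import Pool.Agent.HBM3.Defs

/-!
# Barycentric coordinates with respect to a maximum area inscribed triangle
-/

namespace Pool.Agent.HBM3

open Pointwise

/-- 3 by 3 determinant with rows `(a1,a2,a3)`, `(b1,b2,b3)`, `(c1,c2,c3)`. -/
def D3 (a1 a2 a3 b1 b2 b3 c1 c2 c3 : ℝ) : ℝ :=
  a1*(b2*c3-b3*c2) - a2*(b1*c3-b3*c1) + a3*(b1*c2-b2*c1)

/-- `f1, f2, f3` are the barycentric coordinates with respect to a maximum area triangle `A B C`
inscribed in `K`. -/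
structure Cfg (K : Set Pl) (A B C : Pl) (f1 f2 f3 : Pl → ℝ) : Prop where
  hA : A ∈ K
  hB : B ∈ K
  hC : C ∈ K
  sum : ∀ P, f1 P + f2 P + f3 P = 1
  rep : ∀ P, P = f1 P • A + f2 P • B + f3 P • C
  c1 : ∀ P Q : Pl, ∀ t : ℝ, f1 (P + t • (Q - P)) = f1 P + t * (f1 Q - f1 P)
  c2 : ∀ P Q : Pl, ∀ t : ℝ, f2 (P + t • (Q - P)) = f2 P + t * (f2 Q - f2 P)
  c3 : ∀ P Q : Pl, ∀ t : ℝ, f3 (P + t • (Q - P)) = f3 P + t * (f3 Q - f3 P)
  a1 : f1 A = 1
  a2 : f2 A = 0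
  a3 : f3 A = 0
  b1 : f1 B = 0
  b2 : f2 B = 1
  b3 : f3 B = 0
  c1' : f1 C = 0
  c2' : f2 C = 0
  c3' : f3 C = 1
  bd : ∀ P ∈ K, ∀ Q ∈ K, ∀ R ∈ K,
    D3 (f1 P) (f2 P) (f3 P) (f1 Q) (f2 Q) (f3 Q) (f1 R) (f2 R) (f3 R) ≤ 1

namespace Cfg

variable {K : Set Pl} {A B C : Pl} {f1 f2 f3 : Pl → ℝ}

theorem cyc (h : Cfg K A B C f1 f2 f3) : Cfg K B C A f2 f3 f1 where
  hA := h.hB
  hB := h.hC
  hC := h.hA
  sum P := by have := h.sum P; linarith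
  rep P := by
    conv_lhs => rw [h.rep P]
    abel
  c1 := h.c2
  c2 := h.c3
  c3 := h.c1
  a1 := h.b2
  a2 := h.b3
  a3 := h.b1
  b1 := h.c2'
  b2 := h.c3'
  b3 := h.c1'
  c1' := h.a2
  c2' := h.a3
  c3' := h.a1
  bd P hP Q hQ R hR := by
    have := h.bd P hP Q hQ R hR
    unfold D3 at this ⊢
    linarith

theorem swap (h : Cfg K A B C f1 f2 f3) : Cfg K C B A f3 f2 f1 where
  hA := h.hC
  hB := h.hB
  hC := h.hA
  sum P := by have := h.sum P; linarith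
  rep P := by
    conv_lhs => rw [h.rep P]
    abel
  c1 := h.c3
  c2 := h.c2
  c3 := h.c1
  a1 := h.c3'
  a2 := h.c2'
  a3 := h.c1'
  b1 := h.b3
  b2 := h.b2
  b3 := h.b1
  c1' := h.a3
  c2' := h.a2
  c3' := h.a1
  bd P hP Q hQ R hR := by
    have := h.bd Q hQ P hP R hR
    unfold D3 at this ⊢
    linarith

end Cfg

/-- Three point combination in a convex hull. -/
theorem mem_hull3 {V1 V2 V3 : Pl} {w1 w2 w3 : ℝ} (h1 : 0 ≤ w1) (h2 : 0 ≤ w2) (h3 : 0 ≤ w3)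
    (hs : w1 + w2 + w3 = 1) :
    w1 • V1 + w2 • V2 + w3 • V3 ∈ convexHull ℝ ({V1, V2, V3} : Set Pl) := by
  have hc := convex_convexHull ℝ ({V1, V2, V3} : Set Pl)
  have m1 : V1 ∈ convexHull ℝ ({V1, V2, V3} : Set Pl) := subset_convexHull ℝ _ (by simp)
  have m2 : V2 ∈ convexHull ℝ ({V1, V2, V3} : Set Pl) := subset_convexHull ℝ _ (by simp)
  have m3 : V3 ∈ convexHull ℝ ({V1, V2, V3} : Set Pl) := subset_convexHull ℝ _ (by simp)
  have := hc.sum_mem (t := Finset.univ) (w := ![w1, w2, w3]) (z := ![V1, V2, V3])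
    (by intro i _; fin_cases i <;> simpa) (by simp [Fin.sum_univ_three, hs])
    (by intro i _; fin_cases i <;> simpa)
  simpa [Fin.sum_univ_three] using this

/-- **Lemma L.** If in the coordinates of a triangle `V1 V2 V3` the points of `K` are bounded
below by `-ε_i` with `Σ ε_i ≤ 119/100`, then `K` lies in a translate of `219/100` times the
triangle. (`M` is a common factor.) -/
theorem lemL {K : Set Pl} {A B C : Pl} {f1 f2 f3 : Pl → ℝ} (cfg : Cfg K A B C f1 f2 f3)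
    {V1 V2 V3 : Pl} {M e1 e2 e3 : ℝ} (hM : 0 < M)
    (hdd : 0 < D3 (f1 V1) (f2 V1) (f3 V1) (f1 V2) (f2 V2) (f3 V2) (f1 V3) (f2 V3) (f3 V3))
    (hu1 : ∀ P ∈ K, -e1 ≤
      M * D3 (f1 P) (f2 P) (f3 P) (f1 V2) (f2 V2) (f3 V2) (f1 V3) (f2 V3) (f3 V3))
    (hu2 : ∀ P ∈ K, -e2 ≤
      M * D3 (f1 V1) (f2 V1) (f3 V1) (f1 P) (f2 P) (f3 P) (f1 V3) (f2 V3) (f3 V3))
    (hu3 : ∀ P ∈ K, -e3 ≤
      M * D3 (f1 V1) (f2 V1) (f3 V1) (f1 V2) (f2 V2) (f3 V2) (f1 P) (f2 P) (f3 P))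
    (hs : e1 + e2 + e3 ≤ 119/100 *
      (M * D3 (f1 V1) (f2 V1) (f3 V1) (f1 V2) (f2 V2) (f3 V2) (f1 V3) (f2 V3) (f3 V3))) :
    ∃ t : Pl, K ⊆ (219/100 : ℝ) • convexHull ℝ ({V1, V2, V3} : Set Pl) + {t} := by
  set dd := D3 (f1 V1) (f2 V1) (f3 V1) (f1 V2) (f2 V2) (f3 V2) (f1 V3) (f2 V3) (f3 V3) with hdd'
  have hMd : 0 < M * dd := mul_pos hM hdd
  obtain ⟨e3', he3'⟩ : ∃ e, e = 119/100 * (M * dd) - e1 - e2 := ⟨_, rfl⟩
  have h33 : e3 ≤ e3' := by linarith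
  refine ⟨-((e1 / (M * dd)) • V1 + (e2 / (M * dd)) • V2 + (e3' / (M * dd)) • V3), ?_⟩
  intro P hP
  obtain ⟨d1, hd1⟩ : ∃ d, d = D3 (f1 P) (f2 P) (f3 P) (f1 V2) (f2 V2) (f3 V2)
    (f1 V3) (f2 V3) (f3 V3) := ⟨_, rfl⟩
  obtain ⟨d2, hd2⟩ : ∃ d, d = D3 (f1 V1) (f2 V1) (f3 V1) (f1 P) (f2 P) (f3 P)
    (f1 V3) (f2 V3) (f3 V3) := ⟨_, rfl⟩
  obtain ⟨d3, hd3⟩ : ∃ d, d = D3 (f1 V1) (f2 V1) (f3 V1) (f1 V2) (f2 V2) (f3 V2)
    (f1 P) (f2 P) (f3 P) := ⟨_, rfl⟩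
  have h1 := hu1 P hP
  have h2 := hu2 P hP
  have h3 := hu3 P hP
  rw [← hd1] at h1
  rw [← hd2] at h2
  rw [← hd3] at h3
  have hsum : d1 + d2 + d3 = dd := by
    rw [hd1, hd2, hd3, hdd']
    unfold D3
    have s0 : f3 P = 1 - f1 P - f2 P := by have := cfg.sum P; linarith
    have s1 : f3 V1 = 1 - f1 V1 - f2 V1 := by have := cfg.sum V1; linarith
    have s2 : f3 V2 = 1 - f1 V2 - f2 V2 := by have := cfg.sum V2; linarith
    have s3 : f3 V3 = 1 - f1 V3 - f2 V3 := by have := cfg.sum V3; linarith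
    rw [s0, s1, s2, s3]
    ring
  have hrep : dd • P = d1 • V1 + d2 • V2 + d3 • V3 := by
    rw [hd1, hd2, hd3, hdd']
    unfold D3
    have hr0 := cfg.rep P
    have hr1 := cfg.rep V1
    have hr2 := cfg.rep V2
    have hr3 := cfg.rep V3
    generalize f1 P = p1 at *
    generalize f2 P = p2 at *
    generalize f3 P = p3 at *
    generalize f1 V1 = q1 at *
    generalize f2 V1 = q2 at *
    generalize f3 V1 = q3 at *
    generalize f1 V2 = r1 at *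
    generalize f2 V2 = r2 at *
    generalize f3 V2 = r3 at *
    generalize f1 V3 = s1 at *
    generalize f2 V3 = s2 at *
    generalize f3 V3 = s3 at *
    rw [hr0, hr1, hr2, hr3]
    module
  have hne : M * dd ≠ 0 := hMd.ne'
  have hMne : M ≠ 0 := hM.ne'
  have hdne : dd ≠ 0 := hdd.ne'
  refine Set.mem_add.2 ⟨(219/100 : ℝ) •
    (((M * d1 + e1) / (219/100 * (M * dd))) • V1 + ((M * d2 + e2) / (219/100 * (M * dd))) • V2 +
      ((M * d3 + e3') / (219/100 * (M * dd))) • V3),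
    Set.smul_mem_smul_set (mem_hull3 ?_ ?_ ?_ ?_), _, Set.mem_singleton _, ?_⟩
  · exact div_nonneg (by linarith) (by positivity)
  · exact div_nonneg (by linarith) (by positivity)
  · exact div_nonneg (by linarith) (by positivity)
  · rw [← add_div, ← add_div, div_eq_one_iff_eq (by positivity)]
    rw [he3', ← hsum]
    ring
  · have hP' : P = dd⁻¹ • (d1 • V1 + d2 • V2 + d3 • V3) := by
      rw [← hrep, smul_smul, inv_mul_cancel₀ hdne, one_smul]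
    conv_rhs => rw [hP']
    have k1 : (219/100 : ℝ) * ((M * d1 + e1) / (219/100 * (M * dd))) = dd⁻¹ * d1 + e1 / (M * dd) := by
      field_simp
    have k2 : (219/100 : ℝ) * ((M * d2 + e2) / (219/100 * (M * dd))) = dd⁻¹ * d2 + e2 / (M * dd) := by
      field_simp
    have k3 : (219/100 : ℝ) * ((M * d3 + e3') / (219/100 * (M * dd)))
        = dd⁻¹ * d3 + e3' / (M * dd) := by
      field_simp
    rw [smul_add, smul_add, smul_smul, smul_smul, smul_smul, k1, k2, k3]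
    module

end Pool.Agent.HBM3
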