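import Mathlib

/-!
# The homothety Banach-Mazur distance of planar convex bodies (MP_f9af53_co): definitions
-/

namespace Pool.Agent.HBM3

open Pointwise

/-- The plane. -/
abbrev Pl : Type := EuclideanSpace ℝ (Fin 2)

/-- A planar convex body: a compact convex set with nonempty interior. -/
def IsBody (C : Set Pl) : Prop := Convex ℝ C ∧ IsCompact C ∧ (interior C).Nonempty

/-- An `n`-gon: a convex polygon (convex hull of finitely many points, with nonempty interior)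
with at most `n` vertices. -/
def IsNGon (n : ℕ) (P : Set Pl) : Prop :=
  ∃ S : Finset Pl, S.card ≤ n ∧ P = convexHull ℝ (S : Set Pl) ∧ (interior P).Nonempty

/-- The ratios `λ₂ / λ₁` with `λ₁ C₁ + t₁ ⊆ C₂ ⊆ λ₂ C₁ + t₂`. -/
def homRatios (C₁ C₂ : Set Pl) : Set ℝ :=
  {r | ∃ l₁ l₂ : ℝ, ∃ t₁ t₂ : Pl, 0 < l₁ ∧ 0 < l₂ ∧ l₁ • C₁ + {t₁} ⊆ C₂ ∧
    C₂ ⊆ l₂ • C₁ + {t₂} ∧ r = l₂ / l₁}

/-- The homothety Banach-Mazur distance `δ^{BM-hom}`. -/
noncomputable def homDist (C₁ C₂ : Set Pl) : ℝ := sInf (homRatios C₁ C₂)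

/-- `γ_n`: the supremum over all planar convex bodies `C` of the infimum over all `n`-gons `P` of
the distance of `C` and `P`. -/
noncomputable def gam (n : ℕ) : ℝ :=
  sSup {x | ∃ C, IsBody C ∧ x = sInf {y | ∃ P, IsNGon n P ∧ y = homDist C P}}

end Pool.Agent.HBM3
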