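import Pool.Agent.HBM3.KeyD

namespace Pool.Agent.HBM3

/-- **Key real inequality.** `e1 = n'/(1-ξ)`, `e2 = m'/(1-ζ)`. Either the test triangle of the
second kind works (`0 ≤ F`), or the one of the first kind works (`G ≤ 0`). -/
theorem key {a b c xi ze e1 e2 : ℝ} (hb : 0 ≤ b) (hba : b ≤ a) (hbc : b ≤ c)
    (hxi : 0 ≤ xi) (hze : 0 ≤ ze) (hx : a + xi ≤ 1) (hz : c + ze ≤ 1)
    (hC1 : a*(1+c) + xi*(1-ze) ≤ 1)
    (hC2 : b*(1+a-ze) ≤ 1 - c*(1+a) - ze*(1-xi))
    (hg : 119/100 < a + b + c)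
    (he1 : (1-xi)*e1 = 1 - c*(1+a) - ze*(1-xi)) (he2 : (1-ze)*e2 = 1 - a*(1+c) - xi*(1-ze)) :
    0 ≤ (a+xi)*(119/100-a-c)*(1+c-xi) - (a+xi)*(1 - c*(1+a) - ze*(1-xi))
        - (a+xi-c-ze)*c*xi + (a+xi-c-ze)*a*(1-xi-e2) ∨
    xi ≤ 1/5 ∧ ze ≤ 1/6 ∧ (a+b+c-119/100) + 1/2*(119/100-b)*((a+xi)*ze+(c+ze)*xi) + 1/2*(a+xi)*(c+ze)*(1+b)
        - 1/2*c*(a+xi)*(1-e1) - 1/2*a*(c+ze)*(1-e2)
        + 1/4*(219/100)*(a+xi)*(c+ze)*(a*c-xi*ze) ≤ 0 := by
  have ha0 : 0 < a := by linarith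
  have hc0 : 0 < c := by linarith
  have hze1 : ze < 1 := by linarith
  have hxi1 : xi < 1 := by linarith
  have hmp : 0 ≤ 1 - a*(1+c) - xi*(1-ze) := by linarith
  have hm : 0 ≤ 1 - a - a*c := by
    have := mul_nonneg hxi (by linarith : 0 ≤ 1 - ze)
    linarith
  have hnp : 0 ≤ 1 - c*(1+a) - ze*(1-xi) :=
    le_trans (mul_nonneg hb (by linarith)) hC2
  have hn : 0 ≤ 1 - c - a*c := by
    have := mul_nonneg hze (by linarith : 0 ≤ 1 - xi)
    linarith
  have hbn : b*(1+a) ≤ 1 - c - a*c := by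
    have : 0 ≤ ze * (1 - xi - b) := mul_nonneg hze (by linarith)
    linarith
  have hquad : 0 < a^2 - 19/100*a - 19/100 := by
    have : (119/100 - a) * (1+a) < (b+c)*(1+a) :=
      mul_lt_mul_of_pos_right (by linarith) (by linarith)
    linarith
  have ha1 : a ≤ 1 := by linarith
  have h1 : 5411/10000 ≤ a := by
    by_contra h
    have h' := not_le.1 h
    nlinarith
  have h3 : (119/100 - a)/2 < c := by linarith
  have he2n : 0 ≤ e2 := by
    by_contra h
    have h' := not_le.1 h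
    have := mul_neg_of_pos_of_neg (by linarith : 0 < 1 - ze) h'
    linarith
  -- `F ≥ R + m' W`
  have hF : (a+xi)*(119/100-a-c)*(1+c-xi) - (a+xi)*(1 - c*(1+a) - ze*(1-xi))
        - (a+xi-c-ze)*c*xi + (a+xi-c-ze)*a*(1-xi-e2)
      = (219/100*(a+xi)*(1+c-xi) - (1+a+c)
        + (1 - a*(1+c) - xi*(1-ze))*(1+c-xi - a*(a+xi-c)))
        + a*e2*(ze*(1-(a+xi-c))) := by
    linear_combination (-(a*(a+xi-c))) * he2
  have hFp : 0 ≤ a*e2*(ze*(1-(a+xi-c))) :=
    mul_nonneg (mul_nonneg ha0.le he2n) (mul_nonneg hze (by linarith))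
  rcases le_total c (1/2) with hc | hc
  · left
    have := P1_real h1 h3 hc hxi hx hm hmp
      (by have := mul_nonneg hxi hze; linarith)
    rw [hF]
    linarith
  · have ha2 : a ≤ 2/3 := by nlinarith
    have hc2 : c ≤ 65/100 := by nlinarith
    have hxi5 : xi ≤ 1/5 := by
      by_contra h
      have h' := not_le.1 h
      -- ζ(a+c-δ-ξ) ≤ a²-δa-δ
      have k1 : ze * (a + c - 19/100 - xi) ≤ a^2 - 19/100*a - 19/100 := by nlinarith
      have k2 : xi * (1-ze) ≤ 1 - 3/2*a := by nlinarith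
      have k3 : 1/5*(1-ze) ≤ 1 - 3/2*a := by nlinarith
      have k4 : ze * (2*a + c - 119/100) ≤ a^2 - 19/100*a - 19/100 := by
        have := mul_nonneg hze (by linarith : 0 ≤ (a + c - 19/100 - xi) - (2*a + c - 119/100))
        linarith
      have k5 : ze * (2*a - 69/100) ≤ a^2 - 19/100*a - 19/100 := by
        have := mul_nonneg hze (by linarith : 0 ≤ c - 1/2)
        linarith
      have k6 : 15/2*a - 4 ≤ ze := by linarith
      have k7 := mul_le_mul_of_nonneg_right k6 (by linarith : 0 ≤ 2*a - 69/100)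
      nlinarith
    have hze6 : ze ≤ 1/6 := by
      by_contra h
      have h' := not_le.1 h
      have k1 : ze * (a + c - 19/100 - xi) ≤ a^2 - 19/100*a - 19/100 := by nlinarith
      have k2 : 1/6 * (a + 11/100) ≤ ze * (a + c - 19/100 - xi) := by
        have q1 : 1/6 * (a + 11/100) ≤ ze * (a + 11/100) :=
          mul_le_mul_of_nonneg_right h'.le (by linarith)
        have q2 := mul_le_mul_of_nonneg_left
          (by linarith : a + 11/100 ≤ a + c - 19/100 - xi) hze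
        linarith
      nlinarith
    have hP := P2_real (by linarith) (by linarith) hc hc2 hn hm hxi hxi5 hze hze6 hmp hC2 hbn
    -- bounds for e1, e2
    have hE1 : e1 ≤ (1-c-a*c)*(1+5/4*xi) - ze := by
      by_contra h
      have h' := not_le.1 h
      have := mul_lt_mul_of_pos_left h' (by linarith : 0 < 1 - xi)
      have k : 0 ≤ (1-c-a*c)*(xi*(1/4 - 5/4*xi)) :=
        mul_nonneg hn (mul_nonneg hxi (by linarith))
      linarith
    have hE2 : e2 ≤ (1-a-a*c)*(1+6/5*ze) - xi := by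
      by_contra h
      have h' := not_le.1 h
      have := mul_lt_mul_of_pos_left h' (by linarith : 0 < 1 - ze)
      have k : 0 ≤ (1-a-a*c)*(ze*(1/5 - 6/5*ze)) :=
        mul_nonneg hm (mul_nonneg hze (by linarith))
      linarith
    by_contra hcon
    push Not at hcon
    obtain ⟨hF', hG'⟩ := hcon
    have hG' := hG' hxi5 hze6
    rw [hF] at hF'
    have k1 := mul_le_mul_of_nonneg_left hE1 (mul_nonneg hc0.le (by linarith : 0 ≤ a + xi))
    have k2 := mul_le_mul_of_nonneg_left hE2 (mul_nonneg ha0.le (by linarith : 0 ≤ c + ze))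
    have k3 : 0 ≤ (a+xi)*(c+ze)*(xi*ze) := mul_nonneg (mul_nonneg (by linarith) (by linarith))
      (mul_nonneg hxi hze)
    linarith

end Pool.Agent.HBM3
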