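import Mathlib

namespace Pool.Agent.HBM3

/-- value at `ξ = 0` (divided by `a`). -/
theorem fA_nonneg {a c : ℝ} (h1 : 5411/10000 ≤ a) (h2 : a ≤ 858/1000)
    (h3 : (119/100 - a)/2 < c) (h4 : c ≤ 1/2) :
    0 ≤ 19/100 - a + a^2 + c*(119/100 - a + a^2) - c^2*(1+a) := by
  have e1 : 0 < 535/1000 - 175/100*a + 15/10*a^2 := by nlinarith [sq_nonneg (a - 7/12)]
  have e0 : 0 < 544025/1000000 - 1949025/1000000*a + 244/100*a^2 - 75/100*a^3 := by
    nlinarith [sq_nonneg (a - 6/10), mul_nonneg (sub_nonneg.2 h1) (sub_nonneg.2 h2),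
      mul_nonneg (mul_nonneg (sub_nonneg.2 h1) (sub_nonneg.2 h2)) (by linarith : (0:ℝ) ≤ a)]
  have hw : 0 < 1/2 - (119/100 - a)/2 := by linarith
  have id : (1/2 - (119/100 - a)/2) * (19/100 - a + a^2 + c*(119/100 - a + a^2) - c^2*(1+a))
     = (1/2 - c) * (544025/1000000 - 1949025/1000000*a + 244/100*a^2 - 75/100*a^3)
      + (c - (119/100 - a)/2) * (535/1000 - 175/100*a + 15/10*a^2)
      + (1+a)*((c - (119/100 - a)/2)*(1/2 - c)) * (1/2 - (119/100 - a)/2) := by ring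
  by_contra h
  have h' := not_le.1 h
  have p1 := mul_nonneg (sub_nonneg.2 h4) e0.le
  have p2 := mul_nonneg (by linarith : 0 ≤ c - (119/100 - a)/2) e1.le
  have p3 : 0 ≤ (1+a)*((c - (119/100 - a)/2)*(1/2 - c)) * (1/2 - (119/100 - a)/2) :=
    mul_nonneg (mul_nonneg (by linarith) (mul_nonneg (by linarith) (by linarith))) hw.le
  have := mul_neg_of_pos_of_neg hw h'
  linarith

theorem fB0_nonneg {a : ℝ} (h1 : 5411/10000 ≤ a) (h2 : a ≤ 858/1000) :
    0 ≤ 219/100*(1 - a*((119/100 - a)/2))*(a + (1+a)*((119/100 - a)/2)) - (1 + a + (119/100 - a)/2) := by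
  nlinarith [mul_nonneg (sub_nonneg.2 h1) (sub_nonneg.2 h2), sq_nonneg (a - 6/10), sq_nonneg (a^2 - 36/100),
      mul_nonneg (mul_nonneg (sub_nonneg.2 h1) (sub_nonneg.2 h2)) (by linarith : (0:ℝ) ≤ a),
      mul_nonneg (mul_nonneg (sub_nonneg.2 h1) (sub_nonneg.2 h2)) (mul_nonneg (sub_nonneg.2 h1) (sub_nonneg.2 h2))]

/-- value at `ξ = m`. -/
theorem fB_nonneg {a c : ℝ} (h1 : 5411/10000 ≤ a) (h2 : a ≤ 858/1000)
    (h3 : (119/100 - a)/2 < c) (h4 : c ≤ 1/2) (hm : 0 ≤ 1 - a - a*c) :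
    0 ≤ 219/100*(1 - a*c)*(a + c + a*c) - (1 + a + c) := by
  have f0 := fB0_nonneg h1 h2
  set c0 := (119/100 - a)/2 with hc0
  by_contra h
  have h' := not_le.1 h
  have hv : 0 < c - c0 := by linarith
  rcases le_total a (2/3) with ha | ha
  · have e1 : 0 ≤ -405/1000 + 17375/10000*a - 16425/10000*a^2 := by nlinarith
    have hw : 0 < 1/2 - c0 := by rw [hc0]; linarith
    have id : (1/2 - c0) * (219/100*(1 - a*c)*(a + c + a*c) - (1 + a + c))
       = (1/2 - c) * (219/100*(1 - a*c0)*(a + (1+a)*c0) - (1 + a + c0))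
        + (c - c0) * (-405/1000 + 17375/10000*a - 16425/10000*a^2)
        + 219/100*(a*(1+a))*((c - c0)*(1/2 - c)) * (1/2 - c0) := by ring
    have p1 := mul_nonneg (sub_nonneg.2 h4) f0
    have p2 := mul_nonneg hv.le e1
    have p3 : 0 ≤ 219/100*(a*(1+a))*((c - c0)*(1/2 - c)) * (1/2 - c0) :=
      mul_nonneg (mul_nonneg (by nlinarith) (mul_nonneg hv.le (by linarith))) hw.le
    have := mul_neg_of_pos_of_neg hw h'
    linarith
  · have e1 : 0 ≤ 219/100*a - a^2 - 1 := by nlinarith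
    have hw : 0 < (1 - a - a*c) + a*(c-c0) := by
      have := mul_pos (by linarith : 0 < a) hv
      linarith
    have id : ((1 - a - a*c) + a*(c-c0)) * (219/100*(1 - a*c)*(a + c + a*c) - (1 + a + c))
       = (1 - a - a*c) * (219/100*(1 - a*c0)*(a + (1+a)*c0) - (1 + a + c0))
        + (c - c0) * (219/100*a - a^2 - 1)
        + 219/100*(1+a)*((c - c0)*(1 - a - a*c)) * ((1 - a - a*c) + a*(c-c0)) := by ring
    have p1 := mul_nonneg hm f0
    have p2 := mul_nonneg hv.le e1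
    have p3 : 0 ≤ 219/100*(1+a)*((c - c0)*(1 - a - a*c)) * ((1 - a - a*c) + a*(c-c0)) :=
      mul_nonneg (mul_nonneg (by linarith) (mul_nonneg hv.le hm)) hw.le
    have := mul_neg_of_pos_of_neg hw h'
    linarith

end Pool.Agent.HBM3
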