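import Pool.Agent.HBM3.KeyA

namespace Pool.Agent.HBM3

theorem P1_real {a c xi mp : ℝ} (h1 : 5411/10000 ≤ a) (h3 : (119/100 - a)/2 < c) (h4 : c ≤ 1/2)
    (hxi : 0 ≤ xi) (hx : a + xi ≤ 1) (hm : 0 ≤ 1 - a - a*c) (hmp : 0 ≤ mp)
    (hmp2 : 1 - a - a*c - xi ≤ mp) :
    0 ≤ 219/100*(a+xi)*(1+c-xi) - (1+a+c) + mp*(1+c-xi - a*(a+xi-c)) := by
  have h2 : a ≤ 858/1000 := by
    by_contra h
    have h' := not_le.1 h
    have : a * ((119/100 - a)/2) < a * c := mul_lt_mul_of_pos_left h3 (by linarith)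
    nlinarith
  have hW : 0 ≤ 1+c-xi - a*(a+xi-c) := by nlinarith
  have fA := fA_nonneg h1 h2 h3 h4
  have fB := fB_nonneg h1 h2 h3 h4 hm
  rcases le_total xi (1 - a - a*c) with hc | hc
  · -- concave on [0,m]
    have hge : 0 ≤ 219/100*(a+xi)*(1+c-xi) - (1+a+c)
        + (1 - a - a*c - xi)*(1+c-xi - a*(a+xi-c)) := by
      rcases hm.eq_or_lt with h0 | h0
      · have hx0 : xi = 0 := by linarith
        subst hx0
        have := mul_nonneg (by linarith : 0 ≤ a) fA
        nlinarith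
      · by_contra h
        have h' := not_le.1 h
        have id : (1 - a - a*c) * (219/100*(a+xi)*(1+c-xi) - (1+a+c)
            + (1 - a - a*c - xi)*(1+c-xi - a*(a+xi-c)))
            = (1 - a - a*c - xi) * (a*(19/100 - a + a^2 + c*(119/100 - a + a^2) - c^2*(1+a)))
            + xi * (219/100*(1 - a*c)*(a + c + a*c) - (1 + a + c))
            + (119/100 - a) * (xi*(1 - a - a*c - xi)) * (1 - a - a*c) := by ring
        have p1 := mul_nonneg (sub_nonneg.2 hc) (mul_nonneg (by linarith : 0 ≤ a) fA)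
        have p2 := mul_nonneg hxi fB
        have p3 : 0 ≤ (119/100 - a) * (xi*(1 - a - a*c - xi)) * (1 - a - a*c) :=
          mul_nonneg (mul_nonneg (by linarith) (mul_nonneg hxi (sub_nonneg.2 hc))) hm
        have := mul_neg_of_pos_of_neg h0 h'
        linarith
    have := mul_nonneg (sub_nonneg.2 hmp2) hW
    linarith
  · have hge : 0 ≤ 219/100*(a+xi)*(1+c-xi) - (1+a+c) := by
      by_contra h
      have h' := not_le.1 h
      have hac : 0 < a*c := mul_pos (by linarith) (by linarith)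
      have e1 : 0 ≤ 119/100*(a+c) - 1 := by linarith
      have id : (a*c) * (219/100*(a+xi)*(1+c-xi) - (1+a+c))
          = (1 - a - xi) * (219/100*(1 - a*c)*(a + c + a*c) - (1 + a + c))
          + (xi - (1 - a - a*c)) * (119/100*(a+c) - 1)
          + 219/100*((xi - (1 - a - a*c))*(1 - a - xi))*(a*c) := by ring
      have p1 := mul_nonneg (by linarith : 0 ≤ 1 - a - xi) fB
      have p2 := mul_nonneg (sub_nonneg.2 hc) e1
      have p3 : 0 ≤ 219/100*((xi - (1 - a - a*c))*(1 - a - xi))*(a*c) :=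
        mul_nonneg (mul_nonneg (by norm_num) (mul_nonneg (sub_nonneg.2 hc) (by linarith))) hac.le
      have := mul_neg_of_pos_of_neg hac h'
      linarith
    have := mul_nonneg hmp hW
    linarith

end Pool.Agent.HBM3
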