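import Pool.Agent.HBM3.KeyB

namespace Pool.Agent.HBM3

private theorem bernA_pos (u u1 v v1 : ℝ) (hu : 0 ≤ u) (hu1 : 0 ≤ u1) (hv : 0 ≤ v) (hv1 : 0 ≤ v1) :
    0 ≤ (209681162825/23147208)*u1^4*v1^2 + (22837680164755/1134213192)*u1^4*v*v1
       + (45808396641365/4536852768)*u1^4*v^2 + (2072692582225/81015228)*u*u1^3*v1^2
       + (34341795489395/567106596)*u*u1^3*v*v1 + (69225235350175/2268426384)*u*u1^3*v^2
       + (169485786650/6751269)*u^2*u1^2*v1^2 + (6315638668385/94517766)*u^2*u1^2*v*v1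
       + (6453141206885/189035532)*u^2*u1^2*v^2 + (881110455775/81015228)*u^3*u1*v1^2
       + (19845047425205/567106596)*u^3*u1*v*v1 + (41748452305345/2268426384)*u^3*u1*v^2
       + (382981087025/162030456)*u^4*v1^2 + (9907131490705/1134213192)*u^4*v*v1
       + (21596292240755/4536852768)*u^4*v^2 := by
  positivity

private theorem bernB_pos (u u1 v v1 : ℝ) (hu : 0 ≤ u) (hu1 : 0 ≤ u1) (hv : 0 ≤ v) (hv1 : 0 ≤ v1) :
    0 ≤ (14915073465625/162030456)*u1^4*v1^4 + (150683677039375/126023688)*u1^4*v*v1^3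
       + (394427460369500/141776649)*u1^4*v^2*v1^2 + (3507468988705475/1512284256)*u1^4*v^3*v1
       + (11662150283128945/18147411072)*u1^4*v^4 + (1159943665625/1500282)*u*u1^3*v1^4
       + (1352287251531875/283553298)*u*u1^3*v*v1^3
       + (2522881411992625/283553298)*u*u1^3*v^2*v1^2
       + (7342963893397925/1134213192)*u*u1^3*v^3*v1 + (29509778678605/18670176)*u*u1^3*v^4
       + (37824459790625/27005076)*u^2*u1^2*v1^4 + (1224872616281875/189035532)*u^2*u1^2*v*v1^3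
       + (975373782626375/94517766)*u^2*u1^2*v^2*v1^2
       + (5022325810058125/756142128)*u^2*u1^2*v^3*v1
       + (4280796863151905/3024568512)*u^2*u1^2*v^4 + (33356325446875/40507614)*u^3*u1*v1^4
       + (313754350428125/94517766)*u^3*u1*v*v1^3 + (1386463389299875/283553298)*u^3*u1*v^2*v1^2
       + (1137192619566475/378071064)*u^3*u1*v^3*v1 + (2835473700968935/4536852768)*u^3*u1*v^4
       + (5624964171875/54010152)*u^4*v1^4 + (470125166969375/1134213192)*u^4*v*v1^3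
       + (194982898153375/283553298)*u^4*v^2*v1^2 + (2369969416511825/4536852768)*u^4*v^3*v1
       + (896206755221915/6049137024)*u^4*v^4 := by
  positivity

private theorem bernT_pos (u u1 v v1 w w1 : ℝ) (hu : 0 ≤ u) (hu1 : 0 ≤ u1) (hv : 0 ≤ v) (hv1 : 0 ≤ v1) (hw : 0 ≤ w) (hw1 : 0 ≤ w1) :
    0 ≤ (12748909027205525/4536852768)*u1^4*v1^2*w1^2
       + (20724008377000175/4536852768)*u1^4*v1^2*w*w1
       + (1154614608922325/2268426384)*u1^4*v1^2*w^2
       + (68073006089576015/9073705536)*u1^4*v*v1*w1^2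
       + (1935096686746070/141776649)*u1^4*v*v1*w*w1
       + (4785016008667495/1296243648)*u1^4*v*v1*w^2
       + (43325657450435905/9073705536)*u1^4*v^2*w1^2
       + (24092733238871735/2592487296)*u1^4*v^2*w*w1
       + (8633500457702905/2592487296)*u1^4*v^2*w^2
       + (13211676809195675/1134213192)*u*u1^3*v1^2*w1^2
       + (21608610580036475/1134213192)*u*u1^3*v1^2*w*w1
       + (322246378639475/141776649)*u*u1^3*v1^2*w^2
       + (71157450379212305/2268426384)*u*u1^3*v*v1*w1^2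
       + (8146832379513860/141776649)*u*u1^3*v*v1*w*w1
       + (5191374965537065/324060912)*u*u1^3*v*v1*w^2
       + (45573127851196735/2268426384)*u*u1^3*v^2*w1^2
       + (3643668986940485/92588832)*u*u1^3*v^2*w*w1
       + (9330632989412185/648121824)*u*u1^3*v^2*w^2
       + (13797436495428725/756142128)*u^2*u1^2*v1^2*w1^2
       + (22790602252022075/756142128)*u^2*u1^2*v1^2*w*w1
       + (1511679950996675/378071064)*u^2*u1^2*v1^2*w^2
       + (74863336030483535/1512284256)*u^2*u1^2*v*v1*w1^2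
       + (4323306570573160/47258883)*u^2*u1^2*v*v1*w*w1
       + (5723990297979655/216040608)*u^2*u1^2*v*v1*w^2
       + (48205822525666945/1512284256)*u^2*u1^2*v^2*w1^2
       + (27181814833188515/432081216)*u^2*u1^2*v^2*w*w1
       + (10183148095472245/432081216)*u^2*u1^2*v^2*w^2
       + (14538559220534075/1134213192)*u^3*u1*v1^2*w1^2
       + (24345757235761775/1134213192)*u^3*u1*v1^2*w*w1
       + (922330910838175/283553298)*u^3*u1*v1^2*w^2
       + (79335496696998545/2268426384)*u^3*u1*v*v1*w1^2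
       + (9260878867303340/141776649)*u^3*u1*v*v1*w*w1
       + (915833636287855/46294416)*u^3*u1*v*v1*w^2
       + (51304957349561215/2268426384)*u^3*u1*v^2*w1^2
       + (29175238989164855/648121824)*u^3*u1*v^2*w*w1
       + (1603185795403195/92588832)*u^3*u1*v^2*w^2
       + (15472841438909525/4536852768)*u^4*v1^2*w1^2
       + (26362369827463175/4536852768)*u^4*v1^2*w*w1
       + (2313442596851825/2268426384)*u^4*v1^2*w^2
       + (84742361447470415/9073705536)*u^4*v*v1*w1^2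
       + (2503544248008770/141776649)*u^4*v*v1*w*w1 + (7284279047798695/1296243648)*u^4*v*v1*w^2
       + (54964629079744705/9073705536)*u^4*v^2*w1^2
       + (31548528563774735/2592487296)*u^4*v^2*w*w1 + (12484128157429105/2592487296)*u^4*v^2*w^2 := by
  positivity


theorem H0A {a c : ℝ} (h1 : 541/1000 ≤ a) (h2 : a ≤ 667/1000) (h3 : 1/2 ≤ c) (h4 : c ≤ 65/100) :
    0 ≤ (1+a)*((219/100*a*(1+c) - (1+a+c)) + (1-a-a*c)*(1+c-a*(a-c)))
      - ((1+a)*(a+c-119/100) + (1-c-a*c) + 1/2*c*(a*(1-c-a*c)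
        + (1+a)*(a*(1-c-a*c) - a + a*(1-a-a*c))) + (1+a)*(1/4)*(219/100)*a*c*c*a) := by
  have h := bernA_pos (a - 541/1000) (667/1000 - a) (c - 1/2) (65/100 - c) (by linarith)
    (by linarith) (by linarith) (by linarith)
  ring_nf at h ⊢
  linarith

theorem H0B {a c : ℝ} (h1 : 541/1000 ≤ a) (h2 : a ≤ 667/1000) (h3 : 1/2 ≤ c) (h4 : c ≤ 65/100)
    (hm : 0 ≤ 1 - a - a*c) :
    0 ≤ (1+a)*(219/100*(1-a*c)*(a+c+a*c) - (1+a+c))
      - ((1+a)*(a+c-119/100) + (1-c-a*c) + 1/2*c*(((1+a)*(119/100)-(1-c-a*c))*(1-a-a*c)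
        + (1-a*c)*(1-c-a*c)
        + (1+a)*((1-a*c)*(1-c-a*c)*(1+5/4*(1-a-a*c)) - a - a*(1-a-a*c) + a*(1-a-a*c)))
        + (1+a)*(1/4)*(219/100)*a*c*c*(1-a*c)) := by
  have h := bernB_pos (a - 541/1000) (667/1000 - a) (c - 1/2) (65/100 - c) (by linarith)
    (by linarith) (by linarith) (by linarith)
  have h' : 0 ≤ 36*(a-541/1000)*(c-1/2)*(1-a-a*c) :=
    mul_nonneg (mul_nonneg (by linarith) (by linarith)) hm
  ring_nf at h h' ⊢
  linarith

theorem starT {a c xi : ℝ} (h1 : 541/1000 ≤ a) (h2 : a ≤ 667/1000) (h3 : 1/2 ≤ c)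
    (h4 : c ≤ 65/100) (h5 : 0 ≤ xi) (h6 : xi ≤ 1/5) :
    0 ≤ (1+a)*((1+a)*(xi*(219/100*(1+c-a-2*xi) - (1-a-a*c-xi)*(1+a))
        - xi*(1/2*c*(119/100-a+(1-c-a*c)*(1+5/4*a+5/4*2*xi)) + 1/4*(219/100)*a*c*c)
        - (1/2*(119/100)*(a+xi+xi) + 1/2*(a+xi) - 1/2*c*(a+xi)
          - 1/2*a*(1+xi-(1-a-a*c)-6/5*(1-a-a*c)*c) + 1/4*(219/100)*(a+xi)*a*c))
        + (1+1/2*a*c)*(1-xi) - 1/2*a*(1/5)*(1-a-a*c)*(1+a))
      + (1-c-a*c)*((1+a)*xi*(1/2) - (1+1/2*a*c)) := by
  have h := bernT_pos (a - 541/1000) (667/1000 - a) (c - 1/2) (65/100 - c) xi (1/5 - xi)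
    (by linarith) (by linarith) (by linarith) (by linarith) h5 (by linarith)
  ring_nf at h ⊢
  linarith

end Pool.Agent.HBM3
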