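import Pool.Agent.HBM3.KeyC

namespace Pool.Agent.HBM3

theorem H0_nonneg {a c y : ℝ} (h1 : 541/1000 ≤ a) (h2 : a ≤ 667/1000) (h3 : 1/2 ≤ c)
    (h4 : c ≤ 65/100) (hn : 0 ≤ 1 - c - a*c) (hy : 0 ≤ y) (hm : y ≤ 1 - a - a*c) :
    0 ≤ (1+a)*((219/100*(a+y)*(1+c-y) - (1+a+c)) + (1-a-a*c-y)*(1+c-y-a*(a+y-c)))
      - ((1+a)*(a+c-119/100) + (1-c-a*c) + 1/2*c*(((1+a)*(119/100)-(1-c-a*c))*y
        + (a+y)*(1-c-a*c)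
        + (1+a)*((a+y)*(1-c-a*c)*(1+5/4*y) - a - a*y + a*(1-a-a*c)))
        + (1+a)*(1/4)*(219/100)*a*c*c*(a+y)) := by
  have hA := H0A h1 h2 h3 h4
  have hB := H0B h1 h2 h3 h4 (by linarith)
  rcases (hy.trans hm).eq_or_lt with h0 | h0
  · have hx0 : y = 0 := by linarith
    subst hx0
    ring_nf at hA ⊢
    linarith
  · by_contra h
    have h' := not_le.1 h
    have p1 := mul_nonneg (sub_nonneg.2 hm) hA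
    have p2 := mul_nonneg hy hB
    have p3 : 0 ≤ (1+a)*((119/100-a) + 5/8*c*(1-c-a*c))*(y*(1-a-a*c-y))*(1-a-a*c) := by
      refine mul_nonneg (mul_nonneg (mul_nonneg (by linarith) ?_)
        (mul_nonneg hy (sub_nonneg.2 hm))) h0.le
      have := mul_nonneg (by linarith : (0:ℝ) ≤ 5/8*c) hn
      linarith
    have p4 := mul_neg_of_pos_of_neg h0 h'
    ring_nf at p1 p2 p3 p4
    linarith

theorem star_nonneg {a b c xi ze : ℝ} (h1 : 541/1000 ≤ a) (h2 : a ≤ 667/1000) (h3 : 1/2 ≤ c)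
    (h4 : c ≤ 65/100) (hn : 0 ≤ 1 - c - a*c) (hm : 0 ≤ 1 - a - a*c)
    (h5 : 0 ≤ xi) (h6 : xi ≤ 1/5)
    (h7 : 0 ≤ ze) (h8 : ze ≤ 1/6) (hb : b*(1+a) ≤ 1 - c - a*c) :
    0 ≤ (1+a)*(xi*(219/100*(1+c-a-xi-xi*(1-ze)) - (1-a-a*c-xi*(1-ze))*(1+a))
        - xi*(1/2*c*(119/100-a+(1-c-a*c)*(1+5/4*a+5/4*(xi+xi*(1-ze)))) + 1/4*(219/100)*a*c*c)
        - (1/2*(119/100-b)*(a+xi+xi) + 1/2*(a+xi)*(1+b) - 1/2*c*(a+xi)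
          - 1/2*a*(1+xi-(1-a-a*c)-6/5*(1-a-a*c)*ze-6/5*(1-a-a*c)*c)
          + 1/4*(219/100)*(a+xi)*a*c))
        + (1+1/2*a*c)*(1-xi-b) := by
  have hT := starT h1 h2 h3 h4 h5 h6
  have h1a : 0 < 1 + a := by linarith
  by_contra h
  have h' := not_le.1 h
  have p0 := mul_neg_of_pos_of_neg h1a h'
  have p1 : 0 ≤ (1-c-a*c - b*(1+a)) * ((1+1/2*a*c) - (1+a)*xi*(1/2)) := by
    refine mul_nonneg (by linarith) ?_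
    nlinarith [mul_nonneg (by linarith : 0 ≤ a) (by linarith : 0 ≤ c)]
  have p2 : 0 ≤ (1+a)^2*(xi^2*ze*(219/100-1-a)) := by
    refine mul_nonneg (sq_nonneg _) (mul_nonneg (mul_nonneg (sq_nonneg _) h7) (by linarith))
  have p3 : 0 ≤ (1+a)^2*(xi*(1/2*c)*(1-c-a*c)*(5/4)*(xi*ze)) := by
    refine mul_nonneg (sq_nonneg _) (mul_nonneg (mul_nonneg (mul_nonneg
      (mul_nonneg h5 (by linarith)) hn) (by norm_num)) (mul_nonneg h5 h7))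
  have p4 : 0 ≤ (1+a)^2*(1/2*a*(6/5)*(1-a-a*c)*(1/6-ze)) := by
    refine mul_nonneg (sq_nonneg _) (mul_nonneg (mul_nonneg (by linarith) hm) (by linarith))
  ring_nf at p0 p1 p2 p3 p4 hT
  linarith

theorem P2_real {a b c xi ze : ℝ} (h1 : 541/1000 ≤ a) (h2 : a ≤ 667/1000) (h3 : 1/2 ≤ c)
    (h4 : c ≤ 65/100) (hn : 0 ≤ 1 - c - a*c) (hm : 0 ≤ 1 - a - a*c)
    (h5 : 0 ≤ xi) (h6 : xi ≤ 1/5) (h7 : 0 ≤ ze) (h8 : ze ≤ 1/6)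
    (hC1 : 0 ≤ 1 - a*(1+c) - xi*(1-ze))
    (hC2 : b*(1+a-ze) ≤ 1 - c*(1+a) - ze*(1-xi)) (hb : b*(1+a) ≤ 1 - c - a*c) :
    0 ≤ 219/100*(a+xi)*(1+c-xi) - (1+a+c)
      + (1 - a*(1+c) - xi*(1-ze))*(1+c-xi-a*(a+xi-c))
      - ((a+b+c-119/100) + 1/2*(119/100-b)*((a+xi)*ze+(c+ze)*xi) + 1/2*(a+xi)*(c+ze)*(1+b)
        - 1/2*c*(a+xi)*(1+ze-(1-c-a*c)*(1+5/4*xi))
        - 1/2*a*(c+ze)*(1+xi-(1-a-a*c)*(1+6/5*ze)) + 1/4*(219/100)*(a+xi)*(c+ze)*(a*c)) := by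
  have hS := mul_nonneg h7 (star_nonneg h1 h2 h3 h4 hn hm h5 h6 h7 h8 hb)
  have hH := H0_nonneg (y := xi*(1-ze)) h1 h2 h3 h4 hn (mul_nonneg h5 (by linarith))
    (by linarith)
  have p2 : 0 ≤ (1 - c*(1+a) - ze*(1-xi) - b*(1+a-ze))*(1+1/2*a*c) :=
    mul_nonneg (by linarith) (by nlinarith)
  by_contra h
  have h' := not_le.1 h
  have p0 := mul_neg_of_pos_of_neg (by linarith : 0 < 1 + a) h'
  ring_nf at p0 p2 hS hH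
  linarith

end Pool.Agent.HBM3
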