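import Pool.Agent.HBM3.Cfg
import Pool.Agent.HBM3.Key

/-!
# The three test triangles
-/

namespace Pool.Agent.HBM3

open Pointwise

variable {K : Set Pl} {A B C : Pl} {f1 f2 f3 : Pl → ℝ}

/-- The conclusion: a triangle inscribed in `K`, a translate of `219/100` times which covers
`K`. -/
def Concl (K : Set Pl) : Prop :=
  ∃ V1 ∈ K, ∃ V2 ∈ K, ∃ V3 ∈ K, ∃ t : Pl,
    K ⊆ (219/100 : ℝ) • convexHull ℝ ({V1, V2, V3} : Set Pl) + {t}

/-- The triangle `A B C`. -/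
theorem tri0 (cfg : Cfg K A B C f1 f2 f3) {a b c : ℝ}
    (ha : ∀ P ∈ K, -a ≤ f1 P) (hb : ∀ P ∈ K, -b ≤ f2 P) (hc : ∀ P ∈ K, -c ≤ f3 P)
    (h : a + b + c ≤ 119/100) : Concl K := by
  refine ⟨A, cfg.hA, B, cfg.hB, C, cfg.hC,
    lemL cfg (V1 := A) (V2 := B) (V3 := C) (M := 1) (e1 := a) (e2 := b) (e3 := c) one_pos
      ?_ ?_ ?_ ?_ ?_⟩
  · simp only [cfg.a1, cfg.a2, cfg.a3, cfg.b1, cfg.b2, cfg.b3, cfg.c1', cfg.c2', cfg.c3']
    norm_num [D3]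
  · intro P hP
    simp only [cfg.b1, cfg.b2, cfg.b3, cfg.c1', cfg.c2', cfg.c3']
    have := ha P hP
    unfold D3; linarith
  · intro P hP
    simp only [cfg.a1, cfg.a2, cfg.a3, cfg.c1', cfg.c2', cfg.c3']
    have := hb P hP
    unfold D3; linarith
  · intro P hP
    simp only [cfg.a1, cfg.a2, cfg.a3, cfg.b1, cfg.b2, cfg.b3]
    have := hc P hP
    unfold D3; linarith
  · simp only [cfg.a1, cfg.a2, cfg.a3, cfg.b1, cfg.b2, cfg.b3, cfg.c1', cfg.c2', cfg.c3']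
    unfold D3; linarith

/-- The triangle `A B W`, `W` on the segment `C X`. -/
theorem tri2 (hK : Convex ℝ K) (cfg : Cfg K A B C f1 f2 f3) {X : Pl} (hX : X ∈ K)
    {a c xi ze e2 : ℝ} (ha0 : 0 < a) (hc0 : 0 < c) (hxi : 0 ≤ xi) (hze : 0 ≤ ze)
    (hx1 : a + xi ≤ 1) (hz1 : c + ze < 1 ∨ c + ze ≤ 1) (hD : c + ze ≤ a + xi)
    (hX1 : f1 X = -a) (hX2 : f2 X = a + xi) (hX3 : f3 X = 1 - xi)
    (ha : ∀ P ∈ K, -a ≤ f1 P) (hc : ∀ P ∈ K, -c ≤ f3 P)
    (hCZ : ∀ P ∈ K, (1-ze)*f2 P - (c+ze)*f1 P ≤ 1)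
    (hXZ : ∀ P ∈ K, (a+xi-c-ze)*f3 P - (1+c-xi)*f2 P ≤ 1 - c*(1+a) - ze*(1-xi))
    (he2 : (1-ze)*e2 = 1 - a*(1+c) - xi*(1-ze))
    (hF : 0 ≤ (a+xi)*(119/100-a-c)*(1+c-xi) - (a+xi)*(1 - c*(1+a) - ze*(1-xi))
        - (a+xi-c-ze)*c*xi + (a+xi-c-ze)*a*(1-xi-e2)) : Concl K := by
  have hze1 : ze < 1 := by rcases hz1 with h | h <;> linarith
  have hz1' : c + ze ≤ 1 := by rcases hz1 with h | h <;> linarith
  have hq : 0 < 1 + c - xi := by linarith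
  have hx0 : 0 < a + xi := by linarith
  obtain ⟨D, hDd⟩ : ∃ D, D = a + xi - c - ze := ⟨_, rfl⟩
  have hD0 : 0 ≤ D := by rw [hDd]; linarith
  obtain ⟨M, hM⟩ : ∃ M, M = (a+xi)*(1+c-xi) + xi*D := ⟨_, rfl⟩
  have hM0 : 0 < M := by
    rw [hM]
    have := mul_pos hx0 hq
    have := mul_nonneg hxi hD0
    linarith
  obtain ⟨t, ht⟩ : ∃ t, t = D / M := ⟨_, rfl⟩
  have htM : t * M = D := by rw [ht]; field_simp
  have ht0 : 0 ≤ t := by rw [ht]; positivity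
  have ht1 : t ≤ 1 := by
    rw [ht, div_le_one hM0, hM]
    -- D (1 - xi) ≤ (a+xi) (1+c-xi)
    have h1 : D * (1 - xi) ≤ (a + xi) * (1 - xi) :=
      mul_le_mul_of_nonneg_right (by rw [hDd]; linarith) (by linarith)
    have h2 : (a + xi) * (1 - xi) ≤ (a + xi) * (1 + c - xi) :=
      mul_le_mul_of_nonneg_left (by linarith) hx0.le
    linarith
  have hW := hK.add_smul_sub_mem cfg.hC hX ⟨ht0, ht1⟩
  have w1 : f1 (C + t • (X - C)) = -(t*a) := by rw [cfg.c1, cfg.c1', hX1]; ring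
  have w2 : f2 (C + t • (X - C)) = t*(a+xi) := by rw [cfg.c2, cfg.c2', hX2]; ring
  have w3 : f3 (C + t • (X - C)) = 1 - t*xi := by rw [cfg.c3, cfg.c3', hX3]; ring
  -- the coefficient condition
  have hcoef : 0 ≤ (1-ze)*((a+xi)*(1+c-xi)) - a*D*(1+c) := by
    have h1 : D ≤ (a+xi)*(1-ze) := by
      rw [hDd]
      have := mul_le_mul_of_nonneg_right hx1 hze
      linarith
    have h2 : a*(1+c) ≤ 1+c-xi := by
      have := mul_nonneg (by linarith : 0 ≤ 1 - a - xi) (by linarith : 0 ≤ 1 + c)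
      have := mul_nonneg hxi hc0.le
      linarith
    have h3 : D * (a*(1+c)) ≤ (a+xi)*(1-ze) * (1+c-xi) :=
      mul_le_mul h1 h2 (by positivity) (mul_nonneg hx0.le (by linarith))
    linarith
  refine ⟨A, cfg.hA, B, cfg.hB, C + t • (X - C), hW,
    lemL cfg (V1 := A) (V2 := B) (V3 := C + t • (X - C)) (M := M)
      (e1 := a*((a+xi)*(1+c-xi)) - a*D*(1-xi-e2))
      (e2 := (a+xi)*(1 - c*(1+a) - ze*(1-xi))) (e3 := c*M) hM0
      ?_ ?_ ?_ ?_ ?_⟩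
  · simp only [cfg.a1, cfg.a2, cfg.a3, cfg.b1, cfg.b2, cfg.b3, w1, w2, w3]
    unfold D3
    have h0 : 0 < M * (1 - t*xi) := by
      have : M * (1 - t*xi) = (a+xi)*(1+c-xi) := by linear_combination hM - xi * htM
      rw [this]; exact mul_pos hx0 hq
    have := (mul_pos_iff_of_pos_left hM0).1 h0
    linarith
  · intro P hP
    simp only [cfg.b1, cfg.b2, cfg.b3, w1, w2, w3]
    unfold D3
    have hs := cfg.sum P
    have h1 := hCZ P hP
    have h2 := ha P hP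
    have h3 : 0 ≤ (1-ze)*(a*D*f3 P + (a+xi)*(1+c-xi)*f1 P + a*((a+xi)*(1+c-xi))
        - a*D*(1-xi-e2)) := by
      have k1 := mul_nonneg (by linarith : 0 ≤ f1 P + a) hcoef
      have k2 : 0 ≤ a*D*(1 - ((1-ze)*f2 P - (c+ze)*f1 P)) :=
        mul_nonneg (mul_nonneg ha0.le hD0) (by linarith)
      have e : (1-ze)*(a*D*f3 P + (a+xi)*(1+c-xi)*f1 P + a*((a+xi)*(1+c-xi))
        - a*D*(1-xi-e2)) = (f1 P + a) * ((1-ze)*((a+xi)*(1+c-xi)) - a*D*(1+c))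
          + a*D*(1 - ((1-ze)*f2 P - (c+ze)*f1 P)) := by
        linear_combination (1-ze)*a*D*hs + a*D*he2
      rw [e]; linarith
    have h4 := nonneg_of_mul_nonneg_right h3 (by linarith : 0 < 1 - ze)
    have e : M * (f1 P * (1 * (1 - t * xi) - 0 * (t * (a + xi))) -
        f2 P * (0 * (1 - t * xi) - 0 * -(t * a)) + f3 P * (0 * (t * (a + xi)) - 1 * -(t * a)))
        = a*D*f3 P + (a+xi)*(1+c-xi)*f1 P := by
      linear_combination f1 P * hM + (a * f3 P - xi * f1 P) * htM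
    rw [e]
    linarith
  · intro P hP
    simp only [cfg.a1, cfg.a2, cfg.a3, w1, w2, w3]
    unfold D3
    have h1 := mul_le_mul_of_nonneg_left (hXZ P hP) hx0.le
    have e : M * (1 * (f2 P * (1 - t * xi) - f3 P * (t * (a + xi))) -
        0 * (f1 P * (1 - t * xi) - f3 P * -(t * a)) + 0 * (f1 P * (t * (a + xi)) - f2 P * -(t * a)))
        = (a+xi)*(1+c-xi)*f2 P - (a+xi)*D*f3 P := by
      linear_combination f2 P * hM - (xi * f2 P + (a+xi) * f3 P) * htM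
    rw [e, hDd]
    linarith
  · intro P hP
    simp only [cfg.a1, cfg.a2, cfg.a3, cfg.b1, cfg.b2, cfg.b3]
    unfold D3
    have := mul_le_mul_of_nonneg_left (hc P hP) hM0.le
    linarith
  · simp only [cfg.a1, cfg.a2, cfg.a3, cfg.b1, cfg.b2, cfg.b3, w1, w2, w3]
    unfold D3
    have e : M * (1 * (1 * (1 - t * xi) - 0 * (t * (a + xi))) -
        0 * (0 * (1 - t * xi) - 0 * -(t * a)) + 0 * (0 * (t * (a + xi)) - 1 * -(t * a)))
        = (a+xi)*(1+c-xi) := by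
      linear_combination hM - xi * htM
    rw [e, hM]
    rw [← hDd] at hF
    linarith

end Pool.Agent.HBM3
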