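import Pool.Agent.HBM3.Tri

/-!
# The test triangle `V B W`, `V` on the segment `A Z`, `W` on the segment `C X`
-/

namespace Pool.Agent.HBM3

open Pointwise

variable {K : Set Pl} {A B C : Pl} {f1 f2 f3 : Pl → ℝ}

theorem tri1 (hK : Convex ℝ K) (cfg : Cfg K A B C f1 f2 f3) {X Z : Pl} (hX : X ∈ K) (hZ : Z ∈ K)
    {a b c xi ze e1 e2 : ℝ} (ha0 : 0 < a) (hc0 : 0 < c) (hxi : 0 ≤ xi) (hze : 0 ≤ ze)
    (hx1 : a + xi ≤ 1) (hz1 : c + ze ≤ 1) (hxi5 : xi ≤ 1/5) (hze6 : ze ≤ 1/6)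
    (hX1 : f1 X = -a) (hX2 : f2 X = a + xi) (hX3 : f3 X = 1 - xi)
    (hZ1 : f1 Z = 1 - ze) (hZ2 : f2 Z = c + ze) (hZ3 : f3 Z = -c)
    (ha : ∀ P ∈ K, -a ≤ f1 P) (hb : ∀ P ∈ K, -b ≤ f2 P) (hc : ∀ P ∈ K, -c ≤ f3 P)
    (hCZ : ∀ P ∈ K, (1-ze)*f2 P - (c+ze)*f1 P ≤ 1)
    (hAX : ∀ P ∈ K, (1-xi)*f2 P - (a+xi)*f3 P ≤ 1)
    (hC1 : a*(1+c) + xi*(1-ze) ≤ 1) (hC3 : c*(1+a) + ze*(1-xi) ≤ 1)
    (he1 : (1-xi)*e1 = 1 - c*(1+a) - ze*(1-xi)) (he2 : (1-ze)*e2 = 1 - a*(1+c) - xi*(1-ze))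
    (hG : (a+b+c-119/100) + 1/2*(119/100-b)*((a+xi)*ze+(c+ze)*xi) + 1/2*(a+xi)*(c+ze)*(1+b)
        - 1/2*c*(a+xi)*(1-e1) - 1/2*a*(c+ze)*(1-e2)
        + 1/4*(219/100)*(a+xi)*(c+ze)*(a*c-xi*ze) ≤ 0) : Concl K := by
  obtain ⟨s, hs⟩ : ∃ s, s = (a+xi)/2 := ⟨_, rfl⟩
  obtain ⟨t, ht⟩ : ∃ t, t = (c+ze)/2 := ⟨_, rfl⟩
  have hs0 : 0 < s := by rw [hs]; linarith
  have ht0 : 0 < t := by rw [ht]; linarith
  have hs1 : s ≤ 1/2 := by rw [hs]; linarith
  have ht1 : t ≤ 1/2 := by rw [ht]; linarith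
  have hV := hK.add_smul_sub_mem cfg.hA hZ ⟨hs0.le, by linarith⟩
  have hW := hK.add_smul_sub_mem cfg.hC hX ⟨ht0.le, by linarith⟩
  have v1 : f1 (A + s • (Z - A)) = 1 - s*ze := by rw [cfg.c1, cfg.a1, hZ1]; ring
  have v2 : f2 (A + s • (Z - A)) = s*(c+ze) := by rw [cfg.c2, cfg.a2, hZ2]; ring
  have v3 : f3 (A + s • (Z - A)) = -(s*c) := by rw [cfg.c3, cfg.a3, hZ3]; ring
  have w1 : f1 (C + t • (X - C)) = -(t*a) := by rw [cfg.c1, cfg.c1', hX1]; ring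
  have w2 : f2 (C + t • (X - C)) = t*(a+xi) := by rw [cfg.c2, cfg.c2', hX2]; ring
  have w3 : f3 (C + t • (X - C)) = 1 - t*xi := by rw [cfg.c3, cfg.c3', hX3]; ring
  have hsz : s*(c+ze) = t*(a+xi) := by rw [hs, ht]; ring
  have hac : a*c ≤ 1 := by
    have := mul_le_mul (by linarith : a ≤ 1) (by linarith : c ≤ 1) hc0.le zero_le_one
    linarith
  have hst : s*t ≤ 1/4 := by
    have := mul_le_mul hs1 ht1 ht0.le (by norm_num)
    linarith
  have hsze : s*ze ≤ 1/12 := by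
    have := mul_le_mul hs1 hze6 hze (by norm_num)
    linarith
  have htxi : t*xi ≤ 1/10 := by
    have := mul_le_mul ht1 hxi5 hxi (by norm_num)
    linarith
  have hA' : 0 < (1-s*ze)*(1-t*xi) - s*t*(a*c) := by
    have k1 : s*t*(a*c) ≤ 1/4 := by
      have := mul_le_mul hst hac (by positivity) (by norm_num)
      linarith
    have k2 : 0 ≤ (s*ze)*(t*xi) := by positivity
    linarith
  refine ⟨A + s • (Z - A), hV, B, cfg.hB, C + t • (X - C), hW,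
    lemL cfg (V1 := A + s • (Z - A)) (V2 := B) (V3 := C + t • (X - C)) (M := 1)
      (e1 := a*(1-t*xi-t*(1-xi-e2)))
      (e2 := b*((1-s*ze)*(1-t*xi) - s*t*(a*c)) + (1+b)*(s*(c+ze)+s*t*(a*c-xi*ze)))
      (e3 := c*(1-s*ze-s*(1-ze-e1))) one_pos
      ?_ ?_ ?_ ?_ ?_⟩
  · simp only [cfg.b1, cfg.b2, cfg.b3, w1, w2, w3, v1, v2, v3]
    unfold D3
    linarith
  · intro P hP
    simp only [cfg.b1, cfg.b2, cfg.b3, w1, w2, w3]
    unfold D3
    have hsum := cfg.sum P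
    have h3 : 0 ≤ (1-ze)*((f1 P + a)*(1-t*xi) + t*a*f3 P - t*a*(1-xi-e2)) := by
      have hcoef : 0 ≤ (1-ze)*(1-t*xi) - t*a*(1+c) := by
        have k := mul_le_mul_of_nonneg_left hC1 ht0.le
        have : t ≤ 1 - ze := by linarith
        linarith
      have k1 := mul_nonneg (by linarith [ha P hP] : 0 ≤ f1 P + a) hcoef
      have k2 : 0 ≤ t*a*(1 - ((1-ze)*f2 P - (c+ze)*f1 P)) :=
        mul_nonneg (by positivity) (by linarith [hCZ P hP])
      have e : (1-ze)*((f1 P + a)*(1-t*xi) + t*a*f3 P - t*a*(1-xi-e2))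
          = (f1 P + a) * ((1-ze)*(1-t*xi) - t*a*(1+c))
          + t*a*(1 - ((1-ze)*f2 P - (c+ze)*f1 P)) := by
        linear_combination (1-ze)*t*a*hsum + t*a*he2
      rw [e]; linarith
    have h4 := nonneg_of_mul_nonneg_right h3 (by linarith : 0 < 1 - ze)
    linarith
  · intro P hP
    simp only [v1, v2, v3, w1, w2, w3]
    unfold D3
    have hsum := cfg.sum P
    have k : 0 ≤ (f2 P + b)*(1 - s*ze - t*xi + s*(c+ze)) := by
      refine mul_nonneg (by linarith [hb P hP]) ?_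
      have : 0 < s*(c+ze) := mul_pos hs0 (by linarith)
      linarith
    have hs3 : f3 P = 1 - f1 P - f2 P := by linarith
    have hx' : a + xi = 2*s := by rw [hs]; ring
    have hz' : c + ze = 2*t := by rw [ht]; ring
    have hxi' : xi = 2*s - a := by linarith
    have hze' : ze = 2*t - c := by linarith
    rw [hs3]
    rw [hxi', hze'] at k ⊢
    ring_nf at k ⊢
    linarith
  · intro P hP
    simp only [v1, v2, v3, cfg.b1, cfg.b2, cfg.b3]
    unfold D3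
    have hsum := cfg.sum P
    have h3 : 0 ≤ (1-xi)*((f3 P + c)*(1-s*ze) + s*c*f1 P - s*c*(1-ze-e1)) := by
      have hcoef : 0 ≤ (1-xi)*(1-s*ze) - s*c*(1+a) := by
        have k := mul_le_mul_of_nonneg_left hC3 hs0.le
        have : s ≤ 1 - xi := by linarith
        linarith
      have k1 := mul_nonneg (by linarith [hc P hP] : 0 ≤ f3 P + c) hcoef
      have k2 : 0 ≤ s*c*(1 - ((1-xi)*f2 P - (a+xi)*f3 P)) :=
        mul_nonneg (by positivity) (by linarith [hAX P hP])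
      have e : (1-xi)*((f3 P + c)*(1-s*ze) + s*c*f1 P - s*c*(1-ze-e1))
          = (f3 P + c) * ((1-xi)*(1-s*ze) - s*c*(1+a))
          + s*c*(1 - ((1-xi)*f2 P - (a+xi)*f3 P)) := by
        linear_combination (1-xi)*s*c*hsum + s*c*he1
      rw [e]; linarith
    have h4 := nonneg_of_mul_nonneg_right h3 (by linarith : 0 < 1 - xi)
    linarith
  · simp only [cfg.b1, cfg.b2, cfg.b3, w1, w2, w3, v1, v2, v3]
    unfold D3
    have hx' : a + xi = 2*s := by rw [hs]; ring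
    have hz' : c + ze = 2*t := by rw [ht]; ring
    have hxi' : xi = 2*s - a := by linarith
    have hze' : ze = 2*t - c := by linarith
    rw [hxi', hze'] at hG ⊢
    ring_nf at hG ⊢
    linarith

end Pool.Agent.HBM3
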